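import Pool.Agent.W732.Ud.Stm

/-!
# UD-SUM: the series of the peak functions
-/

set_option autoImplicit false

open Metric Set Filter Topology Complex

namespace Pool.Agent.W571.Ud.Sum

open Pool.Agent.W732.Ud

theorem main : S_lu → S_sum := by
  intro hlu E _ _ _ D P p W κ h hD hP hP1 hp hs h4 hu hW hh hh1
  have hPb : ∀ z ∈ D, P z ∈ ball (0 : ℂ) 1 := fun z hz => by
    rw [mem_ball_zero_iff]
    exact hP1 z hz
  have hle : ∀ k, ∀ z ∈ D, ‖p k (P z) * h k z‖ ≤ ‖p k (P z)‖ := by
    intro k z hz
    rw [norm_mul]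
    exact mul_le_of_le_one_right (norm_nonneg _) (hh1 k z hz)
  have hsn : ∀ z ∈ D, Summable fun k => ‖p k (P z)‖ := fun z hz => hs _ (hPb z hz)
  have hsa : ∀ z ∈ D, Summable fun k => p k (P z) * h k z := fun z hz =>
    Summable.of_norm_bounded (hsn z hz) fun k => hle k z hz
  refine ⟨?_, ?_, ?_⟩
  · refine hlu E D hD (fun n z => ∑ k ∈ Finset.range n, p k (P z) * h k z) _ ?_ ?_
    · intro x hx
      refine ⟨univ, univ_mem, Eventually.of_forall fun n => ?_⟩
      rw [univ_inter]
      refine DifferentiableOn.fun_sum fun k _ => ?_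
      exact ((hp k).comp hP hPb).mul (hh k)
    · intro v hv x hx
      have hr : (1 + ‖P x‖) / 2 < 1 := by
        have := hP1 x hx
        linarith
      obtain ⟨u, hu1, hu2⟩ := hu _ hr
      refine ⟨{z | ‖P z‖ < (1 + ‖P x‖) / 2} ∩ D, ?_, ?_⟩
      · refine inter_mem ?_ self_mem_nhdsWithin
        have hc : ContinuousWithinAt (fun z => ‖P z‖) D x := (hP.continuousOn x hx).norm
        refine hc.eventually_lt_const ?_
        have := hP1 x hx
        simp only
        linarith
      · have h1 : TendstoUniformlyOn (fun N z => ∑ k ∈ Finset.range N, p k (P z) * h k z)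
            (fun z => ∑' k, p k (P z) * h k z) atTop ({z | ‖P z‖ < (1 + ‖P x‖) / 2} ∩ D) := by
          refine tendstoUniformlyOn_tsum_nat hu1 fun k z hz => ?_
          exact (hle k z hz.2).trans (hu2 k _ (le_of_lt hz.1))
        exact h1 v hv
  · intro z hz
    refine (norm_tsum_le_tsum_norm (hsa z hz).norm).trans ?_
    refine ((hsa z hz).norm.tsum_le_tsum (fun k => hle k z hz) (hsn z hz)).trans (h4 _ (hPb z hz))
  · intro k z hz hzW
    obtain ⟨w1, w2⟩ := hW k _ (hPb z hz) hzW
    rw [(hsa z hz).tsum_eq_add_tsum_ite k]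
    have e1 : p k (P z) * h k z + ∑' l, (if l = k then 0 else p l (P z) * h l z) - h k z =
        (p k (P z) - 1) * h k z + ∑' l, (if l = k then 0 else p l (P z) * h l z) := by ring
    rw [e1]
    have e2 : ‖(p k (P z) - 1) * h k z‖ ≤ κ / (k + 1) := by
      rw [norm_mul]
      exact (mul_le_of_le_one_right (norm_nonneg _) (hh1 k z hz)).trans w1
    have hsi : Summable fun l => if l = k then (0 : ℝ) else ‖p l (P z)‖ := by
      refine Summable.of_nonneg_of_le (fun l => ?_) (fun l => ?_) (hsn z hz)
      · split_ifs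
        · exact le_rfl
        · exact norm_nonneg _
      · split_ifs
        · exact norm_nonneg _
        · exact le_rfl
    have e3 : ‖∑' l, (if l = k then 0 else p l (P z) * h l z)‖ ≤ κ / (k + 1) := by
      refine le_trans (tsum_of_norm_bounded hsi.hasSum fun l => ?_) w2
      split_ifs
      · simp
      · exact hle l z hz
    refine (norm_add_le _ _).trans ((add_le_add e2 e3).trans (le_of_eq ?_))
    ring

end Pool.Agent.W571.Ud.Sum
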